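import Pool.Agent.U755.ST.Base

/-! The rank one case over fields with one complex place, with the `L`-functions of characters:
definitions. -/

set_option autoImplicit false

namespace Pool.Agent.U755.PC

open NumberField
open Pool.Agent.K4H33.SK (Qbar GQ Fixes AbelianRoot)
open Pool.Agent.K4H33.SK.Stmt (Sub Ideals nrm Cop)
open Pool.Agent.U755.ST

/-- `χ` is a character of the Galois group of `H/K`: a function on the automorphisms which is
multiplicative on those fixing `K` and trivial on those fixing `H`. -/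
structure IsCharacter (K H : Sub) (χ : GQ → ℂ) : Prop where
  mul : ∀ σ τ : GQ, Fixes K σ → Fixes K τ → χ (σ * τ) = χ σ * χ τ
  triv : ∀ σ : GQ, Fixes H σ → χ σ = 1

/-- The coefficients of the `L`-function of `χ`: the sum of `χ (art 𝔟)` over the ideals `𝔟` of norm
`n` prime to `𝔣`. -/
noncomputable def lCoef (K : Sub) [NumberField K] (𝔣 : Ideals K) (art : Ideals K → GQ)
    (χ : GQ → ℂ) (n : ℕ) : ℂ := ∑ᶠ 𝔟 ∈ {𝔟 : Ideals K | nrm K 𝔟 = n ∧ Cop K 𝔟 𝔣}, χ (art 𝔟)

/-- `Λ` is the continuation, holomorphic away from `s = 1`, of the Dirichlet series with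
coefficients `a`. -/
def IsContinuation (a : ℕ → ℂ) (Λ : ℂ → ℂ) : Prop :=
  DifferentiableOn ℂ Λ {1}ᶜ ∧ ∀ s : ℂ, 1 < s.re → LSeriesHasSum a s (Λ s)

/-- The sum over the Galois group, with the set `T` of representatives, of
`χ(t) log |t ε|_v` for the complex place `v` given by `ι`, where `|x|_v = |ι x|²`. -/
noncomputable def logSum (ι : Qbar →+* ℂ) (T : Finset GQ) (χ : GQ → ℂ) (ε : Qbar) : ℂ :=
  ∑ t ∈ T, χ t * (Real.log (‖ι (t ε)‖ ^ 2) : ℂ)

/-- `L(0, χ) = 0` and `L'(0, χ) = -(1/W) ∑ χ(σ) log |σ ε|_v` for all characters `χ` of `H/K`. -/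
def LFormula (ι : Qbar →+* ℂ) (K H : Sub) [NumberField K] (𝔣 : Ideals K) (art : Ideals K → GQ)
    (W : ℕ) (ε : Qbar) : Prop :=
  ∀ χ : GQ → ℂ, IsCharacter K H χ → ∀ T : Finset GQ, Represents K H T →
    ∃ Λ : ℂ → ℂ, IsContinuation (lCoef K 𝔣 art χ) Λ ∧ Λ 0 = 0 ∧
      deriv Λ 0 = -(1 / (W : ℂ)) * logSum ι T χ ε

/-- `ε` has absolute value one at all places above the real places of `K`. -/
def CircleReal (K : Sub) (ε : Qbar) : Prop :=
  ∀ w : Qbar →+* ℂ, (∀ x ∈ K, (w x).im = 0) → ‖w ε‖ = 1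

/-- The case `r = 1` for the abelian extension `H` of the field `K`, the complex place of `K` given
by `ι`, and the set of places consisting of the infinite places and the primes dividing `𝔣`: there
is a unit `ε` of `H` with the limit formula for all characters of `H/K`, of absolute value one at
the places above the real places of `K`, such that the `W`-th roots of `ε` generate an abelian
extension of `K`. -/
def StarkChar (ι : Qbar →+* ℂ) (K H : Sub) [NumberField K] (𝔣 : Ideals K) (art : Ideals K → GQ)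
    (W : ℕ) : Prop :=
  ∃ ε : Qbar, ε ∈ H ∧ (IsIntegral ℤ ε ∧ IsIntegral ℤ ε⁻¹) ∧ CircleReal K ε ∧
    LFormula ι K H 𝔣 art W ε ∧ AbelianRoot K W ε

end Pool.Agent.U755.PC
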