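import Pool.Agent.U755.ST.Norm
import Pool.Agent.U755.PC.Def
import Pool.Agent.U131.SR.Chr

/-! The rank one case over quartic ATR fields, with the `L`-functions of characters. -/

set_option autoImplicit false

namespace Pool.Agent.U755.PC

open NumberField Module IntermediateField
open Pool.Agent.K4H33.SK (Qbar GQ Fixes IsZeta LimitFormula AbelianRoot IsTorsionOrder)
open Pool.Agent.K4H33.SK.Stmt (Sub Ideals Cop cnt principal PrimesOver)
open Pool.Agent.U755.ST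
open Pool.Agent.K4H33.SQ (DeligneRibet StarkATR)

lemma represents_lay {K H : Sub} {T : Finset GQ} (h : Represents K H T) :
    Pool.Agent.U131.SR.Lay.Represents K H T := by
  refine ⟨h.1, fun σ hσ => ?_, fun t ht t' ht' ha => ?_⟩
  · obtain ⟨τ, ⟨h1, h2⟩, -⟩ := h.2 σ hσ
    exact ⟨τ, h1, h2⟩
  · exact (h.2 t (h.1 t ht)).unique ⟨ht, fun x _ => rfl⟩ ⟨ht', ha⟩

lemma character_lay {K H : Sub} {χ : GQ → ℂ} (h : IsCharacter K H χ) :
    Pool.Agent.U131.SR.Lay.IsCharacter K H χ := ⟨h.mul, h.triv⟩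

lemma lFormula_of {ι : Qbar →+* ℂ} {K H : Sub} [NumberField K] {𝔣 : Ideals K}
    {art : Ideals K → GQ} (hfix : ∀ 𝔟 : Ideals K, Cop K 𝔟 𝔣 → Fixes K (art 𝔟)) (hKH : K ≤ H)
    {Z : GQ → ℂ → ℂ} {ε : Qbar} {W : ℕ} (hW : W ≠ 0)
    (h : LimitFormula ι K W (cnt K H 𝔣 art) Z ε) : LFormula ι K H 𝔣 art W ε := by
  intro χ hχ S hS
  refine ⟨fun s => ∑ t ∈ S, χ t * Z t s, ⟨?_, ?_⟩, ?_, ?_⟩
  · refine DifferentiableOn.fun_sum fun t ht => ?_
    exact (h t (hS.1 t ht)).1.1.const_mul _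
  · intro s hs
    have h3 : ∀ t ∈ S, LSeriesHasSum (χ t • fun n => (cnt K H 𝔣 art t n : ℂ)) s
        (χ t * Z t s) := fun t ht => ((h t (hS.1 t ht)).1.2 s hs).smul (χ t)
    have h4 := LSeriesHasSum.sum h3
    refine (LSeriesHasSum_congr s _ (fun {n} _ => ?_)).1 h4
    rw [show lCoef K 𝔣 art χ n = _ from
      Pool.Agent.U131.SR.Lay.lCoef_eq hfix hKH (character_lay hχ) (represents_lay hS) n,
      Finset.sum_apply]
    rfl
  · refine Finset.sum_eq_zero fun t ht => ?_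
    rw [(h t (hS.1 t ht)).2.1, mul_zero]
  · have hn : ({1}ᶜ : Set ℂ) ∈ nhds (0 : ℂ) := isOpen_compl_singleton.mem_nhds (by simp)
    have h5 : HasDerivAt (fun s => ∑ t ∈ S, χ t * Z t s) (∑ t ∈ S, χ t * deriv (Z t) 0) 0 := by
      refine HasDerivAt.fun_sum fun t ht => ?_
      exact (((h t (hS.1 t ht)).1.1.differentiableAt hn).hasDerivAt).const_mul _
    rw [h5.deriv]
    unfold logSum
    rw [Finset.mul_sum]
    refine Finset.sum_congr rfl fun t ht => ?_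
    rw [(h t (hS.1 t ht)).2.2]
    have hW' : (W : ℂ) ≠ 0 := Nat.cast_ne_zero.2 hW
    field_simp

lemma coprime_of {K : Sub} [NumberField K] {f : ℕ} {𝔣 : Ideals K}
    (h𝔣 : ∀ P : Ideals K, P.IsPrime → (f : 𝓞 K) ∈ P → 𝔣 ≤ P) {𝔟 : Ideals K}
    (h : IsCoprime 𝔟 𝔣) : IsCoprime 𝔟 (principal K f) := by
  rw [Ideal.isCoprime_iff_sup_eq]
  by_contra hne
  obtain ⟨P, hP, hle⟩ := Ideal.exists_le_maximal _ hne
  have hf' : (f : 𝓞 K) ∈ P := hle ((le_sup_right : _ ≤ 𝔟 ⊔ Ideal.span {(f : 𝓞 K)})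
    (Ideal.mem_span_singleton_self _))
  apply hP.ne_top
  rw [Ideal.eq_top_iff_one]
  obtain ⟨i, hi, j, hj, hij⟩ := Ideal.isCoprime_iff_exists.1 h
  rw [← hij]
  exact P.add_mem (hle ((le_sup_left : 𝔟 ≤ 𝔟 ⊔ _) hi)) (h𝔣 P hP.isPrime hf' hj)

/-- **The rank one case over quartic ATR fields.** -/
theorem stark_char_normal (ι : Qbar →+* ℂ) (F K k M N : Sub) [NumberField F] [NumberField K]
    [NumberField k] [NumberField M] [NumberField N] (f : ℕ) (hF : Fields ι F K M)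
    (hN : NFields F k N f) (hMN : M ≤ N) (artF : Ideals F → GQ) (artK : Ideals K → GQ)
    (artk : Ideals k → GQ) (hart : NSymbols F K k N f artF artK artk)
    (hA : ArtinFactorization F K M (principal F f) artF artK)
    (hDR : DeligneRibet F (K ⊔ M) (principal F f) artF) (W' : ℕ) (hW' : IsTorsionOrder N W')
    (hS : Pool.Agent.K4H33.SK.Stmt.StarkImQuad ι k N (principal k f) artk W') (W : ℕ)
    (hW : IsTorsionOrder (K ⊔ M) W) (𝔣 : Ideals K) (h𝔣 : PrimesOver K f 𝔣) :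
    StarkChar ι K (K ⊔ M) 𝔣 artK W := by
  obtain ⟨Z, ε, h1, h2, h3, h4, h5, h6, h7⟩ := stark_quartic_normal ι F K k M N f hF hN hMN artF
    artK artk hart hA hDR W' hW' hS W hW 𝔣 h𝔣
  have hfix : ∀ 𝔟 : Ideals K, Cop K 𝔟 𝔣 → Fixes K (artK 𝔟) := fun 𝔟 hb =>
    (hart.art_K.up hN.two_le).fix 𝔟 (coprime_of h𝔣.2 hb)
  have hW0 : W ≠ 0 := by
    have := hW.1
    omega
  exact ⟨ε, h1, ⟨h4, h5⟩, h6, lFormula_of hfix le_sup_left hW0 h3, h7⟩

end Pool.Agent.U755.PC
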